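import Pool.Agent.W759.FD.All

/-!
# MP_ba6fcf_pr: a finitely dependent process whose coding radius always has infinite mean

There is a stationary 1-dependent process on `ℤ` such that every factor map from an iid process
onto it has a coding radius with infinite expectation.
-/

namespace Pool.Agent.Results.MP_ba6fcf_pr.InfiniteExpectedCodingRadius

open MeasureTheory ProbabilityTheory
open scoped ENNReal

universe u

/-- The shift on bi-infinite sequences. -/
def shift {S : Type*} (x : ℤ → S) : ℤ → S := fun i => x (i + 1)

/-- A law on bi-infinite sequences is stationary if it is invariant under the shift. -/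
def Stationary {S : Type*} [MeasurableSpace S] (μ : Measure (ℤ → S)) : Prop :=
  μ.map shift = μ

/-- `k`-dependence: the restrictions to `A` and to `B` are independent whenever
`|i - j| > k` for all `i ∈ A`, `j ∈ B`. -/
def KDependent {S : Type*} [MeasurableSpace S] (k : ℕ) (μ : Measure (ℤ → S)) : Prop :=
  ∀ A B : Set ℤ, (∀ i ∈ A, ∀ j ∈ B, (k : ℤ) < |i - j|) →
    IndepFun (fun (x : ℤ → S) (i : A) => x i) (fun (x : ℤ → S) (j : B) => x j) μ

/-- The law of the iid process with one-site law `lam`. -/
noncomputable def iidLaw {T : Type*} [MeasurableSpace T] (lam : Measure T) : Measure (ℤ → T) :=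
  Measure.infinitePi (fun _ : ℤ => lam)

/-- Factor maps: measurable and (almost everywhere) commuting with the shift. -/
structure IsFactorMap {T S : Type*} [MeasurableSpace T] [MeasurableSpace S] (lam : Measure T)
    (φ : (ℤ → T) → (ℤ → S)) : Prop where
  measurable : Measurable φ
  equivariant : ∀ᵐ y ∂(iidLaw lam), φ (shift y) = shift (φ y)

/-- The coordinates of `y` in `[-r, r]` determine the coordinate of `φ y` at `0`. -/
def Determines {T S : Type*} (φ : (ℤ → T) → (ℤ → S)) (y : ℤ → T) (r : ℕ) : Prop :=
  ∀ y' : ℤ → T, (∀ i : ℤ, |i| ≤ (r : ℤ) → y' i = y i) → φ y' 0 = φ y 0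

/-- The coding radius of `φ` at `y`: the least `r` such that the coordinates of `y` in `[-r, r]`
determine the coordinate of `φ y` at `0`, and `⊤` if there is no such `r`. -/
noncomputable def codingRadius {T S : Type*} (φ : (ℤ → T) → (ℤ → S)) (y : ℤ → T) : ℕ∞ :=
  ⨅ (r : ℕ) (_ : Determines φ y r), (r : ℕ∞)

/-- There is a stationary 1-dependent process on `ℤ`, with values in a standard Borel space, such
that for every iid process and every factor map from it onto this process, the coding radius has
infinite expectation. -/
theorem result :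
    ∃ (S : Type) (_ : MeasurableSpace S) (_ : StandardBorelSpace S) (μ : Measure (ℤ → S)),
      IsProbabilityMeasure μ ∧ Stationary μ ∧ KDependent 1 μ ∧
      ∀ (T : Type u) [MeasurableSpace T] (lam : Measure T) [IsProbabilityMeasure lam]
        (φ : (ℤ → T) → (ℤ → S)), IsFactorMap lam φ → (iidLaw lam).map φ = μ →
          ∫⁻ y, (codingRadius φ y : ℝ≥0∞) ∂(iidLaw lam) = ⊤ := by
  classical
  refine ⟨Pool.Agent.W759.FD.S0, inferInstance, inferInstance, Pool.Agent.W759.FD.muX,
    Pool.Agent.W759.FD.muX_prob, Pool.Agent.W759.FD.muX_stat, ?_, ?_⟩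
  · intro A B hAB
    exact Pool.Agent.W759.FD.muX_dep A B (by simpa using hAB)
  · intro T _ lam _ φ hφ hmap
    obtain ⟨t0⟩ : Nonempty T := nonempty_of_isProbabilityMeasure lam
    let tr : ℕ → (ℤ → T) → (ℤ → T) := fun r y i => if |i| ≤ (r : ℤ) then y i else t0
    have htr : ∀ r, Measurable (tr r) := by
      intro r
      refine measurable_pi_lambda _ (fun i => ?_)
      by_cases h : |i| ≤ (r : ℤ)
      · simpa [tr, h] using measurable_pi_apply i
      · simp [tr, h]
    have hf : Measurable (fun y => φ y 0) := (measurable_pi_apply 0).comp hφ.measurable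
    have hg : ∀ r, Measurable (fun y => φ (tr r y) 0) := fun r => hf.comp (htr r)
    have hae : (fun (y : ℤ → T) (a : ℤ) => φ (Pool.Agent.W759.FD.sh a y) 0)
        =ᵐ[Pool.Agent.W759.FD.iid lam] φ :=
      Pool.Agent.W759.FD.ae_factor lam φ hφ.equivariant
    have hmap2 : (Pool.Agent.W759.FD.iid lam).map
        (fun y a => φ (Pool.Agent.W759.FD.sh a y) 0) = Pool.Agent.W759.FD.muX := by
      rw [Measure.map_congr hae]
      exact hmap
    refine Pool.Agent.W759.FD.lintegral_top (iidLaw lam) (codingRadius φ)
      (fun r => {y | φ y 0 ≠ φ (tr r y) 0})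
      (fun r => (measurableSet_eq_fun hf (hg r)).compl) ?_ ?_
    · intro r y hy
      by_contra hcon
      rw [not_lt] at hcon
      apply hy
      have hcon2 : codingRadius φ y < ((r + 1 : ℕ) : ℕ∞) :=
        lt_of_le_of_lt hcon (by exact_mod_cast Nat.lt_succ_self r)
      unfold codingRadius at hcon2
      rw [iInf_lt_iff] at hcon2
      obtain ⟨n, hn⟩ := hcon2
      rw [iInf_lt_iff] at hn
      obtain ⟨hd, hn⟩ := hn
      have hn' : n ≤ r := by
        have : n < r + 1 := by exact_mod_cast hn
        omega
      refine (hd (tr r y) (fun i hi => ?_)).symm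
      have : |i| ≤ (r : ℤ) := hi.trans (by exact_mod_cast hn')
      simp [tr, this]
    · intro r
      refine Pool.Agent.W759.FD.p10 T lam r (fun y => φ y 0) (fun y => φ (tr r y) 0) hf (hg r) ?_
        hmap2
      intro y y' h
      have : tr r y = tr r y' := by
        funext i
        by_cases hi : |i| ≤ (r : ℤ)
        · simp [tr, hi, h i hi]
        · simp [tr, hi]
      simp only [this]

end Pool.Agent.Results.MP_ba6fcf_pr.InfiniteExpectedCodingRadius
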